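import Pool.Agent.Helper14.HW.CA
import Pool.Agent.Helper42.HW.CB

/-!
# Sums over marked trees are sums over words (block CD of MP_074879_pr)
-/

open Finset

set_option linter.unusedVariables false

namespace HW

/-! ### Finite sets of words -/

/-- words of length `N` with letters `< K` -/
def cdWords (K : ℕ) : ℕ → Finset (List ℕ)
  | 0 => {[]}
  | N + 1 => (range K ×ˢ cdWords K N).image fun x => x.1 :: x.2

theorem mem_cdWords (K N : ℕ) (x : List ℕ) : x ∈ cdWords K N ↔ x.length = N ∧ ∀ a ∈ x, a < K := by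
  induction N generalizing x with
  | zero =>
    rw [cdWords, mem_singleton]
    constructor
    · rintro rfl
      exact ⟨rfl, fun a ha => by cases ha⟩
    · exact fun h => List.eq_nil_of_length_eq_zero h.1
  | succ N ih =>
    rw [cdWords, mem_image]
    constructor
    · rintro ⟨⟨a, y⟩, h, rfl⟩
      rw [mem_product, mem_range, ih] at h
      refine ⟨by simp [h.2.1], fun b hb => ?_⟩
      rcases List.mem_cons.1 hb with rfl | hb
      · exact h.1
      · exact h.2.2 b hb
    · rintro ⟨h1, h2⟩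
      cases x with
      | nil => cases h1
      | cons a y =>
        refine ⟨(a, y), ?_, rfl⟩
        rw [mem_product, mem_range, ih]
        exact ⟨h2 a (by simp), by simpa using h1, fun b hb => h2 b (by simp [hb])⟩

theorem cd_E_eq_sum (p : ℕ → ℝ) (K N : ℕ) (F : List ℕ → ℝ) :
    E p K N F = ∑ x ∈ cdWords K N, (x.map p).prod * F x := by
  induction N generalizing F with
  | zero => simp [E, cdWords]
  | succ N ih =>
    rw [E, cdWords, sum_image, sum_product]
    · refine sum_congr rfl fun a _ => ?_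
      rw [ih, mul_sum]
      refine sum_congr rfl fun x _ => ?_
      rw [List.map_cons, List.prod_cons, mul_assoc]
    · rintro ⟨a, x⟩ - ⟨b, y⟩ - h
      rw [List.cons.injEq] at h
      exact Prod.ext h.1 h.2

theorem E_one_prod (p : ℕ → ℝ) (K N : ℕ) (F : List ℕ → ℝ) :
    E (fun _ => 1) K N (fun y => (y.map p).prod * F y) = E p K N F := by
  rw [cd_E_eq_sum, cd_E_eq_sum]
  refine sum_congr rfl fun x _ => ?_
  rw [List.map_const', List.prod_replicate, one_pow, one_mul]

theorem cd_E_one (K N : ℕ) (F : List ℕ → ℝ) :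
    E (fun _ => 1) K N F = ∑ x ∈ cdWords K N, F x := by
  rw [cd_E_eq_sum]
  refine sum_congr rfl fun x _ => ?_
  rw [List.map_const', List.prod_replicate, one_pow, one_mul]

/-! ### Symmetric sums -/

/-- weight of a word whose first letter is the marked one -/
def Wt (γ p : ℕ → ℝ) : List ℕ → ℝ
  | [] => 0
  | k :: y => γ k * (y.map p).prod

theorem cd_symsum_eq_aux (γ p : ℕ → ℝ) (x : List ℕ) :
    symsum γ p x = ∑ i ∈ range x.length,
      γ (x.getD i 0) * (((x.drop (i + 1)).map p).prod * ((x.take i).map p).prod) := by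
  induction x with
  | nil => simp [symsum]
  | cons a l ih =>
    rw [symsum, ih, List.length_cons, sum_range_succ', mul_sum, add_comm]
    congr 1
    · refine sum_congr rfl fun i _ => ?_
      simp only [List.getD_cons_succ, List.drop_succ_cons, List.take_succ_cons, List.map_cons,
        List.prod_cons]
      ring
    · simp

theorem cd_Wt_rotate (γ p : ℕ → ℝ) (x : List ℕ) (i : ℕ) (hi : i < x.length) :
    Wt γ p (x.rotate i) =
      γ (x.getD i 0) * (((x.drop (i + 1)).map p).prod * ((x.take i).map p).prod) := by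
  rw [List.rotate_eq_drop_append_take hi.le, List.drop_eq_getElem_cons hi, List.cons_append, Wt,
    List.map_append, List.prod_append, List.getD_eq_getElem _ _ hi]

theorem symsum_eq (γ p : ℕ → ℝ) (x : List ℕ) :
    symsum γ p x = ∑ i ∈ range x.length, Wt γ p (x.rotate i) := by
  rw [cd_symsum_eq_aux]
  exact sum_congr rfl fun i hi => (cd_Wt_rotate γ p x i (mem_range.1 hi)).symm

theorem symsum_perm (γ p : ℕ → ℝ) (x y : List ℕ) (h : x.Perm y) :
    symsum γ p x = symsum γ p y := by
  induction h with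
  | nil => rfl
  | cons a h ih => rw [symsum, symsum, ih, (h.map p).prod_eq]
  | swap a b l =>
    simp only [symsum, List.map_cons, List.prod_cons]
    ring
  | trans _ _ h1 h2 => exact h1.trans h2

/-! ### Sums over rotations -/

theorem cd_stp_cons (a : ℕ) (l : List ℕ) : stp (a :: l) = (a : ℤ) - 1 + stp l := rfl

theorem cd_stp_perm {x y : List ℕ} (h : x.Perm y) : stp x = stp y := by
  induction h with
  | nil => rfl
  | cons a h ih => rw [cd_stp_cons, cd_stp_cons, ih]
  | swap a b l =>
    rw [cd_stp_cons, cd_stp_cons, cd_stp_cons, cd_stp_cons]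
    ring
  | trans _ _ h1 h2 => exact h1.trans h2

theorem cd_stp_add_length (x : List ℕ) : stp x + x.length = (x.sum : ℕ) := by
  induction x with
  | nil => rfl
  | cons a l ih =>
    rw [cd_stp_cons, List.length_cons, List.sum_cons]
    push_cast at ih ⊢
    linarith

theorem cd_letter_lt {x : List ℕ} (h : stp x = -1) {a : ℕ} (ha : a ∈ x) : a < x.length := by
  have h1 := cd_stp_add_length x
  have h2 : a ≤ x.sum := List.single_le_sum (fun _ _ => Nat.zero_le _) a ha
  omega

theorem cd_rotate_inj {n : ℕ} {u u' : List ℕ} (hu : Luk u) (hu' : Luk u') (hl : u.length = n)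
    (hl' : u'.length = n) {i i' : ℕ} (hi : i < n) (hi' : i' < n)
    (h : u.rotate i = u'.rotate i') : u = u' ∧ i = i' := by
  have h1 : u' = u.rotate ((i + (n - i')) % n) := by
    have h2 : (u'.rotate i').rotate (n - i') = u' := by
      rw [List.rotate_rotate, show i' + (n - i') = u'.length by omega, List.rotate_length]
    rw [← h, List.rotate_rotate] at h2
    rw [← h2, ← List.rotate_mod u (i + (n - i')), hl]
  have h3 : (i + (n - i')) % n < n := Nat.mod_lt _ (by omega)
  have h4 : (i + (n - i')) % n = 0 := cycle_unique u hu _ (by rw [hl]; exact h3) (h1 ▸ hu')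
  rw [h4, List.rotate_zero] at h1
  refine ⟨h1.symm, ?_⟩
  obtain ⟨k, hk⟩ := Nat.dvd_of_mod_eq_zero h4
  have h5 : k < 2 := by
    by_contra hc
    have : n * 2 ≤ n * k := Nat.mul_le_mul_left n (by omega)
    omega
  have h6 : k ≠ 0 := by
    rintro rfl
    omega
  have h7 : k = 1 := by omega
  subst h7
  omega

theorem cd_luk_dfw {n : ℕ} {T : Forest} (hT : T ∈ trees n) : Luk T.dfw := by
  rw [mem_trees] at hT
  refine ⟨by rw [stp_dfw, hT.1]; rfl, fun i hi => ?_⟩
  rw [dfw_length] at hi
  have h1 := stp_dfw_take T i hi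
  rw [hT.1] at h1
  push_cast at h1
  omega

theorem cd_rotate_mem_words {n K : ℕ} (hK : n ≤ K) {u : List ℕ} (hu : Luk u) (hl : u.length = n)
    (i : ℕ) : u.rotate i ∈ (cdWords K n).filter fun x => stp x = -1 := by
  have h1 : stp (u.rotate i) = -1 := by rw [cd_stp_perm (List.rotate_perm u i), hu.1]
  rw [mem_filter, mem_cdWords]
  refine ⟨⟨by rw [List.length_rotate, hl], fun a ha => ?_⟩, h1⟩
  have h2 := cd_letter_lt h1 ha
  rw [List.length_rotate, hl] at h2
  omega

/-- uses CA, CB -/
theorem sum_rotate_le (n K : ℕ) (hn : 1 ≤ n) (hK : n ≤ K) (Φ : List ℕ → ℝ) (hΦ : ∀ x, 0 ≤ Φ x)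
    (enc : Forest → List ℕ) (hinj : ∀ T ∈ trees n, ∀ T' ∈ trees n, enc T = enc T' → T = T')
    (hluk : ∀ T ∈ trees n, Luk (enc T)) (hlen : ∀ T ∈ trees n, (enc T).length = n) :
    ∑ T ∈ trees n, ∑ i ∈ range n, Φ ((enc T).rotate i) ≤
      E (fun _ => 1) K n (fun x => if stp x = -1 then Φ x else 0) := by
  rw [cd_E_one, ← sum_filter, ← sum_product']
  rw [← sum_image (s := trees n ×ˢ range n) (g := fun x => (enc x.1).rotate x.2) (f := Φ)]
  · refine sum_le_sum_of_subset_of_nonneg (fun y hy => ?_) (fun y _ _ => hΦ y)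
    obtain ⟨⟨T, i⟩, h, rfl⟩ := mem_image.1 hy
    rw [mem_product] at h
    exact cd_rotate_mem_words hK (hluk T h.1) (hlen T h.1) i
  · rintro ⟨T, i⟩ h ⟨T', i'⟩ h' heq
    rw [mem_coe, mem_product, mem_range] at h h'
    obtain ⟨h1, h2⟩ := cd_rotate_inj (hluk T h.1) (hluk T' h'.1) (hlen T h.1) (hlen T' h'.1) h.2 h'.2
      heq
    exact Prod.ext (hinj T h.1 T' h'.1 h1) h2

/-- uses CA, CB -/
theorem sum_rotate_eq (n K : ℕ) (hn : 1 ≤ n) (hK : n ≤ K) (Φ : List ℕ → ℝ) :
    ∑ T ∈ trees n, ∑ i ∈ range n, Φ (T.dfw.rotate i) =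
      E (fun _ => 1) K n (fun x => if stp x = -1 then Φ x else 0) := by
  have hlen : ∀ T ∈ trees n, T.dfw.length = n := fun T hT => by
    rw [dfw_length, ((mem_trees n T).1 hT).2]
  have himg : (trees n ×ˢ range n).image (fun x => x.1.dfw.rotate x.2) =
      (cdWords K n).filter fun x => stp x = -1 := by
    ext y
    constructor
    · intro hy
      obtain ⟨⟨T, i⟩, h, rfl⟩ := mem_image.1 hy
      rw [mem_product] at h
      exact cd_rotate_mem_words hK (cd_luk_dfw h.1) (hlen T h.1) i
    · intro hy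
      rw [mem_filter, mem_cdWords] at hy
      obtain ⟨⟨hy1, -⟩, hy2⟩ := hy
      obtain ⟨i, hi, hL⟩ := cycle_exists y hy2
      obtain ⟨F, hF, hF1⟩ := exists_forest (y.rotate i) 1 (by rw [hL.1]; rfl) (fun j hj => by
        have := hL.2 j hj
        push_cast
        omega)
      refine mem_image.2 ⟨(F, (n - i) % n), ?_, ?_⟩
      · rw [mem_product, mem_trees, mem_range]
        refine ⟨⟨hF1, ?_⟩, Nat.mod_lt _ (by omega)⟩
        rw [← dfw_length, hF, List.length_rotate, hy1]
      · change F.dfw.rotate ((n - i) % n) = y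
        have h1 : F.dfw.length = n := by rw [hF, List.length_rotate, hy1]
        have h2 : F.dfw.rotate ((n - i) % n) = F.dfw.rotate (n - i) := by
          conv_lhs => rw [← h1]
          rw [List.rotate_mod, h1]
        rw [h2, hF, List.rotate_rotate, show i + (n - i) = y.length by omega, List.rotate_length]
  rw [cd_E_one, ← sum_filter, ← sum_product', ← himg, sum_image]
  rintro ⟨T, i⟩ h ⟨T', i'⟩ h' heq
  rw [mem_coe, mem_product, mem_range] at h h'
  obtain ⟨h1, h2⟩ := cd_rotate_inj (cd_luk_dfw h.1) (cd_luk_dfw h'.1) (hlen T h.1) (hlen T' h'.1) h.2 h'.2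
    heq
  refine Prod.ext (dfw_unique T T' [] [] (by rw [h1]) ?_).1 h2
  rw [((mem_trees n T).1 h.1).1, ((mem_trees n T').1 h'.1).1]

theorem cd_E_mul (p : ℕ → ℝ) (K N : ℕ) (c : ℝ) (F : List ℕ → ℝ) :
    E p K N (fun x => c * F x) = c * E p K N F := by
  rw [cd_E_eq_sum, cd_E_eq_sum, mul_sum]
  exact sum_congr rfl fun x _ => by ring

theorem TM_univ (n K : ℕ) (hn : 1 ≤ n) (hK : n ≤ K) (γ p : ℕ → ℝ) :
    TM n γ p (fun _ => True) =
      ∑ k ∈ range K, γ k * Pr p K (n - 1) (fun y => stp y = -(k : ℤ)) := by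
  classical
  have h1 : TM n γ p (fun _ => True) = ∑ T ∈ trees n, ∑ i ∈ range n, Wt γ p (T.dfw.rotate i) := by
    rw [TM]
    refine sum_congr rfl fun T hT => ?_
    rw [if_pos trivial, symsum_eq, dfw_length, ((mem_trees n T).1 hT).2]
  obtain ⟨m, rfl⟩ : ∃ m, n = m + 1 := ⟨n - 1, by omega⟩
  rw [h1, sum_rotate_eq (m + 1) K hn hK, E, Nat.add_sub_cancel]
  refine sum_congr rfl fun k _ => ?_
  rw [one_mul, Pr, ← cd_E_mul, ← E_one_prod p K m]
  refine congrArg (E (fun _ => 1) K m) (funext fun y => ?_)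
  have h2 : stp (k :: y) = (k : ℤ) - 1 + stp y := rfl
  by_cases h : stp y = -(k : ℤ)
  · rw [if_pos h, if_pos (by rw [h2, h]; ring), Wt]
    ring
  · rw [if_neg h, if_neg (by rw [h2]; intro h3; exact h (by linarith))]
    ring

end HW
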